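import Pool.Agent.RAT.PF
import Pool.Agent.RAT.PG

/-!
Stein's restriction estimate for the unit sphere of `R^n`, for every `n ≥ 3` and in the full
conjectured range `p > 2n/(n-1)`, for the densities `w e^{iψ}` with all phases `ψ` which are given by a
formula with at most `N` atoms (real constants and coordinates, joined by `+`, `*`, `/` and
`if 0 < f then g else h`), with one constant for all these phases. The phases are piecewise rational;
they may be discontinuous and unbounded. The functions `w` have an `L²`-modulus of continuity of order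
larger than `(n-1)/(2n)`. Stein's conjecture is the independence of `N` of this constant.
-/

namespace Pool.Agent.Results.MP_6cbfb8_an.FormulaPhases

open MeasureTheory Set Pool.Agent.MP_6cbfb8_an Pool.Agent.GNP Pool.Agent.VANn.RAT
open scoped ENNReal Real

/-- The densities `w e^{iψ}` with a phase `ψ` given by a formula with at most `N` atoms and a function
`w`, `|w| ≤ 1`, with `L²`-modulus of continuity of order `s/2` with the constant `V`. -/
def FP (n N : ℕ) (s V : ℝ) (g : E n → ℂ) : Prop :=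
  ∃ (k : ℕ) (ψ : E n → ℝ) (w : E n → ℂ), k ≤ N ∧ HasFormula n k ψ ∧ Measurable w ∧
    (∀ x, ‖w x‖ ≤ 1) ∧ BN2 n s V w ∧ ∀ x, g x = w x * Complex.exp ((ψ x : ℂ) * Complex.I)

/-- Let `n ≥ 3`, `p > 2n/(n-1)`, `s > (n-1)/n`, `N ∈ ℕ` and `V ∈ ℝ`. There is a finite `C` such that (1)
for all densities `g` of the class `FP`, i.e. `g = w e^{iψ}` with a phase `ψ` given by a formula with at
most `N` atoms, the integral of the `p`-th power of the Fourier transform of `g dσ` is at most `C`; (2)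
the integral of the `p`-th power of the Fourier transform of a superposition, over a finite measure
space, of rotated and modulated densities of this kind is at most `C` times the `p`-th power of the mass
of the measure space. Functions of bounded variation, bounded by `1`, belong to `s = 1`.

For every `p ≥ 1` the transforms of all bounded densities are in `L^p` (for all `p > 2n/(n-1)` this is
Stein's conjecture in `R^n`) if and only if there is a finite `C` which does for the densities `e^{iψ}` with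
the phases `ψ` given by formulas of all lengths `N`; and for every `C` the estimate with `C` for all
measurable densities bounded by `1` is the estimate with the same `C` for these `e^{iψ}`. -/
theorem result (n : ℕ) (hn : 3 ≤ n) :
    (∀ (p s V : ℝ) (N : ℕ), 2 * (n : ℝ) / (n - 1) < p → ((n : ℝ) - 1) / n < s →
    ∃ C : ℝ≥0∞, C ≠ ∞ ∧
      (∀ g : E n → ℂ, FP n N s V g → ∫⁻ ξ, ‖extn g ξ‖ₑ ^ p ≤ C) ∧
      ∀ (T : Type) (_ : MeasurableSpace T) (ν : Measure T) (_ : IsFiniteMeasure ν)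
        (R : T → (E n ≃ₗᵢ[ℝ] E n)) (η : T → E n) (h : T → E n → ℂ),
        (Measurable fun q : T × E n => R q.1 q.2) → Measurable η →
        (Measurable fun q : T × E n => h q.1 q.2) → (∀ t, FP n N s V (h t)) →
        ∫⁻ ξ, ‖extn (mix ν R η h) ξ‖ₑ ^ p ≤ C * ν univ ^ p) ∧
    (∀ (V : ℝ) (w : E n → ℂ), (∀ x, ‖w x‖ ≤ 1) → BVn n 1 V w → BN2 n 1 (2 * V) w) ∧
    ∀ p : ℝ, 1 ≤ p →
      ((∀ g : E n → ℂ, Measurable g → (∀ x, ‖g x‖ ≤ 1) → ∫⁻ ξ, ‖extn g ξ‖ₑ ^ p < ∞) ↔
        ∃ C : ℝ≥0∞, C ≠ ∞ ∧ ∀ (N : ℕ) (ψ : E n → ℝ), HasFormula n N ψ →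
          ∫⁻ ξ, ‖extn (fun x => Complex.exp ((ψ x : ℂ) * Complex.I)) ξ‖ₑ ^ p ≤ C) ∧
      ∀ C : ℝ≥0∞,
        (∀ g : E n → ℂ, Measurable g → (∀ x, ‖g x‖ ≤ 1) → ∫⁻ ξ, ‖extn g ξ‖ₑ ^ p ≤ C) ↔
        ∀ (N : ℕ) (ψ : E n → ℝ), HasFormula n N ψ →
          ∫⁻ ξ, ‖extn (fun x => Complex.exp ((ψ x : ℂ) * Complex.I)) ξ‖ₑ ^ p ≤ C := by
  refine ⟨fun p s V N hp hs => ?_, fun V w hw h => Pool.Agent.VANn.bn2_of_bvn hw h,
    fun p hp => ⟨formula_stein (by omega) hp, formula_density hp⟩⟩
  obtain ⟨m, rfl⟩ : ∃ m, n = m + 1 := ⟨n - 1, by omega⟩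
  have hm : 2 ≤ m := by omega
  have hp' : 2 * ((m : ℝ) + 1) / m < p := by
    refine lt_of_eq_of_lt ?_ hp
    push_cast
    congr 1
    ring
  have hs' : (m : ℝ) / (m + 1) < s := by
    refine lt_of_eq_of_lt ?_ hs
    push_cast
    congr 1
    ring
  have hp1 : 1 ≤ p := by
    refine le_trans ?_ hp'.le
    have hm0 : (0 : ℝ) < m := by exact_mod_cast (by omega : 0 < m)
    rw [le_div_iff₀ hm0]
    linarith
  obtain ⟨C, hC, h⟩ := formula_hs hm hs' V N p hp'
  have hb : ∀ g : E (m + 1) → ℂ, FP (m + 1) N s V g → ∀ x, ‖g x‖ ≤ 1 := by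
    rintro g ⟨k, ψ, w, -, -, -, hw, -, hg⟩ x
    rw [hg x, norm_mul, Complex.norm_exp_ofReal_mul_I, mul_one]
    exact hw x
  have h1 : ∀ g : E (m + 1) → ℂ, FP (m + 1) N s V g → ∫⁻ ξ, ‖extn g ξ‖ₑ ^ p ≤ C := by
    rintro g ⟨k, ψ, w, hk, hψ, hwm, hw1, hw2, hg⟩
    have e : g = fun x => w x * Complex.exp (((ψ x : ℝ) : ℂ) * Complex.I) := funext hg
    rw [e]
    exact h k ψ hk hψ w ⟨hwm, hw1, hw2⟩
  refine ⟨C, hC, h1, ?_⟩
  intro T mT ν hν R η k hR hη hk hFP
  exact lintegral_mix_le hp1 (fun g => FP (m + 1) N s V g) (fun g _ _ hg => h1 g hg)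
    ν R η k hR hη hk (fun t x => hb _ (hFP t) x) hFP

end Pool.Agent.Results.MP_6cbfb8_an.FormulaPhases
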