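import Pool.Agent.LQ.TQ3
import Pool.Agent.LQ.ZFT
import Pool.Agent.LQ.BVE
import Pool.Agent.LF.FM
import Pool.Agent.LF2.MODH

/-!
# Densities which are arbitrary across the level sets of one function

(1) All bounded measurable functions of any quadratic form `Q`, on the whole sphere, `n ≥ 3`, all
the functions `G (Q x, x)` which are smooth in `x`, and their products with the indicator functions
of finitely many half-spaces whose positions are arbitrary measurable functions of `Q x`; nothing is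
assumed across the quadrics.

(2) `n = 3`: all bounded measurable functions on the whole sphere which are of bounded variation
along the level curves of any quadratic form.

(3) Bounded densities which have some regularity, in the mean, along the level sets of a function
`φ`; nothing is assumed across them.

(4) The condition on `φ`.
-/

set_option autoImplicit false

namespace Pool.Agent.Results.MP_6cbfb8_an.LeafDensities

open MeasureTheory Set Pool.Agent.MP_6cbfb8_an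
open scoped ENNReal Real ContDiff RealInnerProductSpace

/-- The estimate `∫ |extn g| ^ p ≤ C (ν W) ^ p`, with one constant `C`, for all the superpositions
`g` of rotated and modulated functions of the class `H`, over all finite measure spaces `(W, ν)`. -/
def Bd (n : ℕ) (p : ℝ) (H : (E n → ℂ) → Prop) : Prop :=
  ∃ C : ℝ≥0∞, C ≠ ⊤ ∧ ∀ (W : Type) [MeasurableSpace W] (ν : Measure W) [IsFiniteMeasure ν]
    (R : W → (E n ≃ₗᵢ[ℝ] E n)) (η : W → E n) (h : W → E n → ℂ),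
    (Measurable fun q : W × E n => R q.1 q.2) → Measurable η →
    (Measurable fun q : W × E n => h q.1 q.2) → (∀ w, H (h w)) →
    ∫⁻ ξ, ‖extn (mix ν R η h) ξ‖ₑ ^ p ≤ C * ν univ ^ p

/-- The functions `G (Q x, x)`, for measurable functions `G (t, x)`, smooth in `x`, with derivatives
in `x` up to the order `n + 1` bounded by `B`, times the indicator functions of `N` half-spaces
`c_j (Q x) < ⟪x, v_j⟫`, for measurable functions `c_j`. -/
def GQ {n : ℕ} (Q : E n → ℝ) (N : ℕ) (B : ℝ) (g : E n → ℂ) : Prop :=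
  ∃ (G : ℝ → E n → ℂ) (v : Fin N → E n) (c : Fin N → ℝ → ℝ), Measurable (Function.uncurry G) ∧
    (∀ t, ContDiff ℝ ∞ (G t)) ∧ (∀ j ≤ n + 1, ∀ t x, ‖iteratedFDeriv ℝ j (G t) x‖ ≤ B) ∧
    (∀ j, Measurable (c j)) ∧
    ∀ x, g x = G (Q x) x * ∏ j, if c j (Q x) < inner ℝ x (v j) then 1 else 0

/-- Measurable functions, bounded by `V`, whose variation is at most `V` along every simple arc
`γ : [0, 1] → S` which is contained in a level set of `φ` and has the Lipschitz constant `1`. -/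
def ClV {n : ℕ} (φ : E n → ℝ) (V : ℝ) (g : E n → ℂ) : Prop :=
  Measurable g ∧ (∀ x, ‖g x‖ ≤ V) ∧
    ∀ γ : ℝ → E n, LipschitzWith 1 γ → InjOn γ (Icc 0 1) →
      (∀ u ∈ Icc (0 : ℝ) 1, ‖γ u‖ = 1 ∧ φ (γ u) = φ (γ 0)) →
      eVariationOn (fun u => g (γ u)) (Icc 0 1) ≤ ENNReal.ofReal V

/-- Measurable functions `g`, bounded by `V`, such that for every `0 < r ≤ 1` there is a measurable
`h ≥ 0` with `∫ h ^ q ≤ V r ^ τ` over the unit sphere and `|g x - g y| ≤ h x + h y` whenever `x` and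
`y` are points of the unit sphere with `φ x = φ y` and `|x - y| ≤ r`. -/
def ClM {n : ℕ} (φ : E n → ℝ) (q τ V : ℝ) (g : E n → ℂ) : Prop :=
  Measurable g ∧ (∀ x, ‖g x‖ ≤ V) ∧
    ∀ r : ℝ, 0 < r → r ≤ 1 → ∃ h : E n → ℝ≥0∞, Measurable h ∧
      ∫⁻ x : S n, h x ^ q ∂(sm n) ≤ ENNReal.ofReal (V * r ^ τ) ∧
      ∀ x y, ‖x‖ = 1 → ‖y‖ = 1 → φ x = φ y → ‖x - y‖ ≤ r → ‖g x - g y‖ₑ ≤ h x + h y

/-- No nonzero vector orthogonal to `x0` and to the gradient of `φ` at `x0` is an eigenvector of the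
second derivative of `φ` at `x0`, compressed to the orthogonal complement of `x0`. -/
def Cyc {n : ℕ} (φ : E n → ℝ) (x0 : E n) : Prop :=
  ∀ v : E n, v ≠ 0 → ⟪v, x0⟫ = 0 → fderiv ℝ φ x0 v = 0 → ∀ μ : ℝ,
    ∃ w : E n, ⟪w, x0⟫ = 0 ∧ fderiv ℝ (fderiv ℝ φ) x0 v w ≠ μ * ⟪v, w⟫

theorem result :
    (∀ n : ℕ, 3 ≤ n → ∀ (Q : QuadraticForm ℝ (E n)) (N : ℕ) (B p : ℝ),
      2 * (n : ℝ) / (n - 1) < p → Bd n p (GQ Q N B)) ∧
    (∀ (Q : QuadraticForm ℝ (E 3)) (p V : ℝ), 3 < p → Bd 3 p (ClV Q V)) ∧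
    (∀ n : ℕ, 3 ≤ n → ∀ (φ : E n → ℝ) (K : Set (E n)), IsCompact K →
      (∀ x ∈ K, ‖x‖ = 1 ∧ (∀ᶠ y in nhds x, ContDiffAt ℝ ∞ φ y) ∧ Cyc φ x) →
      ∀ q τ p V : ℝ, 0 < q → q ≤ p → 0 < τ → 2 * (n : ℝ) / (n - 1) < p → 4 - 2 * τ < p →
        Bd n p fun g => ClM φ q τ V g ∧ ∀ x, ‖x‖ = 1 → x ∉ K → g x = 0) ∧
    (∀ (n : ℕ) (b : Fin n → ℝ), Function.Injective b → ∀ x : E n,
      Cyc (fun x => ∑ i, b i * x i ^ 2) x ↔ ∀ i, x i ≠ 0) :=
  ⟨fun _ hn Q N B _ hp => Pool.Agent.TQ.bd_gt_every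
      (fun _ hm N p hp => Pool.Agent.LFD.zonal_ft (p := p) hm N hp) hn Q N B hp,
    fun Q _ V hp => Pool.Agent.LFD.bvq_every Q hp V,
    fun _ hn φ _ hK hc _ _ _ V hq hqp hτ hp hτp =>
      Pool.Agent.LF2.leafM_bd hn φ hK hc hq hqp hτ hp hτp V,
    fun _ b hb x => Pool.Agent.LF.cyc_quad_iff b hb x⟩

end Pool.Agent.Results.MP_6cbfb8_an.LeafDensities
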