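import Pool.Agent.LFK.HSVR
import Pool.Agent.LFK.EX2
import Pool.Agent.LFK.GN3
import Pool.Agent.LFK.CYC
import Pool.Agent.LF2.MIX2

/-!
# Densities which are only measurable in `k` directions

`G(t, x)` is measurable in `t ∈ R^k` and smooth in `x`; the density is `G(φ(x), x)` times finitely
many factors `V(φ(x), ⟨l, x⟩)`, `V(t, s)` monotone in `s` and only measurable in `t`: it is regular
along the level sets of `φ` and arbitrary across them; `φ` is a smooth map of a neighbourhood in the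
unit sphere of `R^n` to `R^k` whose level sets are in general position.
-/

set_option autoImplicit false

namespace Pool.Agent.Results.MP_6cbfb8_an.RoughDirections

open MeasureTheory Set Pool.Agent.MP_6cbfb8_an Pool.Agent.LFK
open scoped ENNReal Real ContDiff RealInnerProductSpace

/-- The second derivative `D²f(x)(a, y)`. -/
noncomputable def D2 {n : ℕ} (f : E n → ℝ) (x a y : E n) : ℝ :=
  iteratedFDeriv ℝ 2 f x ![a, y]

/-- The third derivative `D³f(x)(a, b, y)`. -/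
noncomputable def D3 {n : ℕ} (f : E n → ℝ) (x a b y : E n) : ℝ :=
  iteratedFDeriv ℝ 3 f x ![a, b, y]

theorem D2_eq {n : ℕ} (f : E n → ℝ) (x a y : E n) :
    D2 f x a y = fderiv ℝ (fderiv ℝ f) x a y := by
  simp [D2, iteratedFDeriv_two_apply]

theorem D3_eq {n : ℕ} (f : E n → ℝ) (x a b y : E n) :
    D3 f x a b y = fderiv ℝ (fderiv ℝ (fderiv ℝ f)) x a b y := by
  rw [D3, iteratedFDeriv_succ_apply_right]
  have h := iteratedFDeriv_two_apply (𝕜 := ℝ) (fderiv ℝ f) x (Fin.init ![a, b, y])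
  rw [h]
  rfl

/-- The function `c_0 |x|² / 2 + c · φ(x)`. -/
noncomputable def Phc {n k : ℕ} (φ : E n → E k) (c : ℝ × E k) (x : E n) : ℝ :=
  c.1 / 2 * ‖x‖ ^ 2 + ⟪c.2, φ x⟫

/-- The phases `φ = (φ_1, .., φ_k)` are in general position at the point `x0` of the sphere. -/
def Gen {n k : ℕ} (φ : E n → E k) (x0 : E n) : Prop :=
  (∀ c : ℝ × E k, fderiv ℝ (Phc φ c) x0 = 0 → c = 0) ∧
  ∀ (c c1 c2 c3 : ℝ × E k) (a b : E n), c ≠ 0 → a ≠ 0 → b ≠ 0 → ⟪a, x0⟫ = 0 → ⟪b, x0⟫ = 0 →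
    ⟪a, b⟫ = 0 →
    (∀ y, D2 (Phc φ c) x0 a y + fderiv ℝ (Phc φ c1) x0 y = 0) →
    (∀ y, D2 (Phc φ c) x0 b y + fderiv ℝ (Phc φ c2) x0 y = 0) →
    ∃ y, D3 (Phc φ c) x0 a b y + D2 (Phc φ c1) x0 b y + D2 (Phc φ c2) x0 a y +
      fderiv ℝ (Phc φ c3) x0 y ≠ 0

theorem gen_iff {n k : ℕ} (φ : E n → E k) (x0 : E n) : Gen φ x0 ↔ Pool.Agent.LFK.Gen φ x0 := by
  have h : (Phc : (E n → E k) → ℝ × E k → E n → ℝ) = Pool.Agent.LFK.Phc := rfl
  simp only [Gen, Pool.Agent.LFK.Gen, D2_eq, D3_eq, h]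

/-- No nonzero vector orthogonal to `x0` and to the gradient of `φ` at `x0` is an eigenvector of the
second derivative of `φ` at `x0`, compressed to the orthogonal complement of `x0`. -/
def Cyc {n : ℕ} (φ : E n → ℝ) (x0 : E n) : Prop :=
  ∀ v : E n, v ≠ 0 → ⟪v, x0⟫ = 0 → fderiv ℝ φ x0 v = 0 → ∀ μ : ℝ,
    ∃ w : E n, ⟪w, x0⟫ = 0 ∧ D2 φ x0 v w ≠ μ * ⟪v, w⟫

theorem cyc_iff {n : ℕ} (φ : E n → ℝ) (x0 : E n) : Cyc φ x0 ↔ Pool.Agent.LF.Cyc φ x0 := by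
  simp only [Cyc, Pool.Agent.LF.Cyc, D2_eq]

/-- Functions `G t x` of a point `t` of `R^k` and of a point `x` of `R^n`: measurable in `(t, x)`,
smooth in `x`, with derivatives in `x` of order `j` bounded by `B j`, and zero at the points `x` of
the unit sphere which are not in `U`. -/
def Clk {n k : ℕ} (U : Set (E n)) (B : ℕ → ℝ) (G : E k → E n → ℂ) : Prop :=
  Measurable (Function.uncurry G) ∧ (∀ t, ContDiff ℝ ∞ (G t)) ∧
    (∀ j t x, ‖iteratedFDeriv ℝ j (G t) x‖ ≤ B j) ∧ ∀ t x, ‖x‖ = 1 → x ∉ U → G t x = 0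

/-- The estimate `∫ |extn g| ^ p ≤ C (ν W) ^ p`, with one constant `C`, for all the superpositions
`g` of rotated and modulated functions of the class `H`, over all finite measure spaces `(W, ν)`. -/
def Bd (n : ℕ) (p : ℝ) (H : (E n → ℂ) → Prop) : Prop :=
  ∃ C : ℝ≥0∞, C ≠ ⊤ ∧ ∀ (W : Type) [MeasurableSpace W] (ν : Measure W) [IsFiniteMeasure ν]
    (R : W → (E n ≃ₗᵢ[ℝ] E n)) (η : W → E n) (h : W → E n → ℂ),
    (Measurable fun q : W × E n => R q.1 q.2) → Measurable η →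
    (Measurable fun q : W × E n => h q.1 q.2) → (∀ w, H (h w)) →
    ∫⁻ ξ, ‖extn (mix ν R η h) ξ‖ₑ ^ p ≤ C * ν univ ^ p

/-- The densities `G (φ x, x) * ∏ j, V_j (φ x, ⟨l_j, x⟩)` with `G` of class `Clk U B`, unit vectors
`l_j` and measurable functions `V_j` with values in `[0, 1]`, monotone in the last variable. -/
def Rd {n k : ℕ} (φ : E n → E k) (U : Set (E n)) (B : ℕ → ℝ) (J : ℕ) (g : E n → ℂ) : Prop :=
  ∃ (G : E k → E n → ℂ) (l : Fin J → E n) (V : Fin J → E k → ℝ → ℝ), Clk U B G ∧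
    (∀ j, ‖l j‖ = 1) ∧ (∀ j, Measurable (Function.uncurry (V j))) ∧
    (∀ j t s, 0 ≤ V j t s ∧ V j t s ≤ 1) ∧ (∀ j t, Monotone (V j t)) ∧
    ∀ x, g x = G (φ x) x * ((∏ j, V j (φ x) (inner ℝ (l j) x) : ℝ) : ℂ)

/-- The estimate for the class `Rd`. -/
theorem bd_rd {n k : ℕ} (hk : 1 ≤ k) (hkn : k + 2 ≤ n) (φ : E n → E k) {K : Set (E n)}
    (hK : IsCompact K)
    (hc : ∀ x ∈ K, ‖x‖ = 1 ∧ (∀ᶠ y in nhds x, ContDiffAt ℝ ∞ φ y) ∧ Gen φ x) :
    ∃ U : Set (E n), IsOpen U ∧ K ⊆ U ∧ ∀ p : ℝ, 2 * (n : ℝ) / (n - 1) < p →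
      ∀ (B : ℕ → ℝ) (J : ℕ), Bd n p (Rd φ U B J) := by
  obtain ⟨U, hU, hKU, H⟩ := resV hk hkn φ hK
    fun x hx => ⟨(hc x hx).1, (hc x hx).2.1, (gen_iff φ x).1 (hc x hx).2.2⟩
  refine ⟨U, hU, hKU, fun p hp B J => ?_⟩
  obtain ⟨C, hC, HC⟩ := H p hp B J
  have hn : (3 : ℝ) ≤ n := by
    have : 3 ≤ n := by omega
    exact_mod_cast this
  have hp1 : 1 ≤ p := by
    refine le_trans ?_ hp.le
    rw [le_div_iff₀ (by linarith)]
    linarith
  have hb : ∀ g, Rd φ U B J g → ∀ x, ‖g x‖ ≤ max 1 (B 0) := by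
    rintro g ⟨G, l, V, hG, -, -, hV, -, hg⟩ x
    rw [hg, norm_mul]
    have h1 : ‖G (φ x) x‖ ≤ max 1 (B 0) := by
      have := hG.2.2.1 0 (φ x) x
      rw [norm_iteratedFDeriv_zero] at this
      exact this.trans (le_max_right _ _)
    have h2 : ‖((∏ j, V j (φ x) (inner ℝ (l j) x) : ℝ) : ℂ)‖ ≤ 1 := by
      rw [Complex.norm_real, Real.norm_eq_abs, Finset.abs_prod]
      refine Finset.prod_le_one (fun _ _ => abs_nonneg _) fun j _ => ?_
      rw [abs_of_nonneg (hV j _ _).1]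
      exact (hV j _ _).2
    calc _ ≤ max 1 (B 0) * 1 := mul_le_mul h1 h2 (norm_nonneg _) (le_trans zero_le_one
          (le_max_left _ _))
      _ = _ := mul_one _
  refine ⟨C, hC, fun W _ ν _ R η h hR hη hh hcl => ?_⟩
  refine Pool.Agent.LF.mix_le hp1 (M := max 1 (B 0)) (lt_max_of_lt_left one_pos) (Rd φ U B J)
    ?_ ν R η h hR hη hh (fun w x => hb _ (hcl w) x) hcl
  rintro g - - ⟨G, l, V, hG, hl, hVm, hV, hVo, hg⟩
  have h3 := HC Unit (Measure.dirac ()) (fun _ => LinearIsometryEquiv.refl ℝ (E n)) (fun _ => 0)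
    (fun _ => G) (fun _ => l) (fun _ => V) measurable_snd measurable_const
    (hG.1.comp measurable_snd) (fun _ => hG) (fun j => measurable_const) (fun _ j => hl j)
    (fun j => (hVm j).comp measurable_snd) (fun _ j t s => (hV j t s).1)
    (fun _ j t s => (hV j t s).2) (fun _ j t => hVo j t)
  have h4 : mix (Measure.dirac ()) (fun _ => LinearIsometryEquiv.refl ℝ (E n)) (fun _ => 0)
      (fun (_ : Unit) x => G (φ x) x * ((∏ j, V j (φ x) (inner ℝ (l j) x) : ℝ) : ℂ)) = g := by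
    funext x
    rw [hg]
    unfold mix
    rw [integral_dirac]
    simp
  rw [h4, Measure.dirac_apply_of_mem (Set.mem_univ _), ENNReal.one_rpow, mul_one] at h3
  exact h3

theorem result :
    (∀ n k : ℕ, 1 ≤ k → k + 2 ≤ n → ∀ (φ : E n → E k) (K : Set (E n)), IsCompact K →
      (∀ x ∈ K, ‖x‖ = 1 ∧ (∀ᶠ y in nhds x, ContDiffAt ℝ ∞ φ y) ∧ Gen φ x) →
      ∃ U : Set (E n), IsOpen U ∧ K ⊆ U ∧ ∀ p : ℝ, 2 * (n : ℝ) / (n - 1) < p →
        ∀ (B : ℕ → ℝ) (J : ℕ), Bd n p (Rd φ U B J)) ∧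
    (∀ n k : ℕ, 4 * k ≤ n + 1 → ∀ (φ : E n → E k) (x0 : E n), ‖x0‖ = 1 → ContDiffAt ℝ 3 φ x0 →
      ∀ᵐ y : (Fin k → Fin n → ℝ) × (Fin k → Fin n → Fin n → ℝ) ×
          (Fin k → Fin n → Fin n → Fin n → ℝ),
        Gen (fun x => φ x + WithLp.toLp 2 fun j => (∑ i, y.1 j i * (x i - x0 i)) +
          (∑ i, ∑ l, y.2.1 j i l * ((x i - x0 i) * (x l - x0 l))) +
          ∑ i, ∑ l, ∑ m, y.2.2 j i l m * ((x i - x0 i) * (x l - x0 l) * (x m - x0 m))) x0) ∧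
    (∀ n : ℕ, 10 ≤ n → Gen (fun x : E n => WithLp.toLp 2
      ![∑ i : Fin n, ((i : ℝ) + 1) * (n * x i ^ 3 - x i),
        ∑ i : Fin n, ((i : ℝ) + 1) ^ 4 * (n * x i ^ 3 - x i)])
      (WithLp.toLp 2 fun _ => 1 / √(n : ℝ))) ∧
    (∀ (n : ℕ) (φ : E n → E 1) (x0 : E n), 2 ≤ n → ‖x0‖ = 1 → ContDiffAt ℝ 2 φ x0 →
      Cyc (fun x => φ x 0) x0 → Gen φ x0) :=
  ⟨fun _ _ hk hkn φ _ hK hc => bd_rd hk hkn φ hK hc,
    fun n k hn φ x0 hx hφ =>
      (GA1.gen_ae1 n k hn φ x0 hx hφ).mono fun _ h => (gen_iff _ _).2 h,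
    fun _ hn => (gen_iff _ _).2 (gen_phi2 hn),
    fun _ _ _ hn hx hφ hc => (gen_iff _ _).2 (gen_of_cyc hn hx hφ ((cyc_iff _ _).1 hc))⟩

end Pool.Agent.Results.MP_6cbfb8_an.RoughDirections
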