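import Pool.Agent.DEC.ALL
import Pool.Agent.VANn.DMV

/-!
# Smooth phases, and phases with singularities, on the unit sphere of `R^n`

(1) Phases and amplitudes on the unit sphere of `R^n`, `n ≥ 3`, which are smooth off a set `Sig`
of dimension `κ ≤ (n-1)^2/n` (more for larger `p`), the derivatives of order `j` being bounded
by powers of the distance to `Sig`. `Sig = ∅`, `a = 1`: every smooth phase.

(2) The same for all dimensions `κ < n - 1` is the whole conjecture; so is the same for one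
singular point with `|x - e|^(-A j)` in place of `|x - e|^(-A - j)`; so is the estimate for every
smooth phase without the arbitrarily small loss.
-/

set_option autoImplicit false

namespace Pool.Agent.Results.MP_6cbfb8_an.SmoothPhases

open MeasureTheory Set Pool.Agent.MP_6cbfb8_an Pool.Agent.GNP.TM
open scoped ENNReal Real

theorem result :
    (∀ n : ℕ, 3 ≤ n → ∀ p κ : ℝ, 2 * (n : ℝ) / (n - 1) < p → 0 ≤ κ →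
      κ * (p - n / (n - 1)) < (n - 1) * p - (n + 1) → ∀ (A : ℕ) (V ε : ℝ), 0 ≤ V → 0 < ε →
      ∃ (k : ℕ) (C : ℝ≥0∞), C ≠ ∞ ∧
        ∀ (Sig : Set (E n)) (lam : ℝ) (ψ : E n → ℝ) (a : E n → ℂ),
          0 ≤ lam → Cov V κ Sig → PhsF k A lam Sig ψ → AmsF k Sig a →
          ∫⁻ ξ, ‖extn (fun x => a x * Complex.exp (((ψ x : ℝ) : ℂ) * Complex.I)) ξ‖ₑ ^ p ≤
            C * ENNReal.ofReal ((1 + lam) ^ ε)) ∧
    (∀ n : ℕ, 2 ≤ n → List.TFAE [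
      ∀ p : ℝ, 2 * (n : ℝ) / (n - 1) < p → ∀ g : E n → ℂ, Measurable g → (∀ x, ‖g x‖ ≤ 1) →
        ∫⁻ ξ, ‖extn g ξ‖ₑ ^ p < ∞,
      ∀ p : ℝ, 2 * (n : ℝ) / (n - 1) < p → ∃ C : ℝ≥0∞, C ≠ ∞ ∧
        ∀ g : E n → ℂ, Measurable g → (∀ x, ‖g x‖ ≤ 1) → ∫⁻ ξ, ‖extn g ξ‖ₑ ^ p ≤ C,
      ∀ p κ : ℝ, 2 * (n : ℝ) / (n - 1) < p → 0 ≤ κ → κ < n - 1 →
        ∀ (A : ℕ) (V : ℝ) (Sig : Set (E n)) (ψ : E n → ℝ),
        Cov V κ Sig → (∀ k : ℕ, ∃ lam : ℝ, PhsF k A lam Sig ψ) →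
        ∫⁻ ξ, ‖extn (fun x => Complex.exp (((ψ x : ℝ) : ℂ) * Complex.I)) ξ‖ₑ ^ p < ∞,
      ∀ p : ℝ, 2 * (n : ℝ) / (n - 1) < p → ∀ (e : E n) (A : ℕ) (B : ℕ → ℝ) (ψ : E n → ℝ),
        (∀ x, ‖x‖ = 1 → x ≠ e → ContDiffAt ℝ ((⊤ : ℕ∞) : WithTop ℕ∞) ψ x ∧
          ∀ j : ℕ, ‖iteratedFDeriv ℝ j ψ x‖ ≤ B j / ‖x - e‖ ^ (A * j)) →
        ∫⁻ ξ, ‖extn (fun x => Complex.exp (((ψ x : ℝ) : ℂ) * Complex.I)) ξ‖ₑ ^ p < ∞,
      ∀ p : ℝ, 2 * (n : ℝ) / (n - 1) < p → ∀ φ : E n → ℝ,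
        (∀ x ∈ Metric.sphere (0 : E n) 1, ContDiffAt ℝ ((⊤ : ℕ∞) : WithTop ℕ∞) φ x) →
        ∃ C : ℝ≥0∞, C ≠ ∞ ∧ ∀ c : ℝ,
          ∫⁻ ξ, ‖extn (fun x => Complex.exp (((c * φ x : ℝ) : ℂ) * Complex.I)) ξ‖ₑ ^ p ≤ C]) :=
  ⟨fun n hn p κ hp hκ hexp A V ε hV hε =>
      Pool.Agent.DEC.tame_final n hn p κ hp hκ hexp A V ε hV hε,
    fun n hn => Pool.Agent.VANn.DM.stein_five n hn⟩

end Pool.Agent.Results.MP_6cbfb8_an.SmoothPhases
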